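import Pool.Agent.WR3.StmtsA
import Pool.Agent.WIR.StmtsE

/-!
WR3, row DTY: the defect of harmonicity for typical numbers of odd steps.
-/

namespace Pool.Agent.WR3.H58

open Pool.Agent.WIR Pool.Agent.WR2 Pool.Agent.WR3
open scoped BigOperators

theorem pj_cast (m l a : ℕ) (h : m ≤ l) : pj m l ((a : ℕ) : ZMod (3 ^ l)) = ((a : ℕ) : ZMod (3 ^ m)) := by
  unfold pj
  rw [ZMod.val_natCast]
  rw [ZMod.natCast_eq_natCast_iff]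
  exact (Nat.mod_modEq a (3 ^ l)).of_dvd (pow_dvd_pow 3 h)

theorem sum_cls (hava : AvaStmt) (l : ℕ) (G : ZMod (3 ^ l) → ℝ) :
    ∑ a ∈ Finset.Icc 1 (3 ^ l), G ((a : ℕ) : ZMod (3 ^ l)) = ∑ z, G z := by
  have h := (hava.2.1 l G).2
  unfold av at h
  have h3 : (3 : ℝ) ^ l ≠ 0 := pow_ne_zero _ (by norm_num)
  exact (div_left_inj' h3).1 h

theorem sum_cls3 (hava : AvaStmt) (l : ℕ) (G : ZMod (3 ^ l) → ℝ) :
    ∑ a ∈ Finset.Icc 1 (3 ^ (l + 1)), G ((a : ℕ) : ZMod (3 ^ l)) = 3 * ∑ z, G z := by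
  have h1 := (hava.2.1 l G).1
  have h2 := (hava.1 l (l + 1) (fun a => G ((a : ℕ) : ZMod (3 ^ l))) h1 (Nat.le_succ l)).2
  unfold av at h2
  rw [sum_cls hava l G] at h2
  have h3 : (3 : ℝ) ^ l ≠ 0 := pow_ne_zero _ (by norm_num)
  have h4 : (3 : ℝ) ^ (l + 1) ≠ 0 := pow_ne_zero _ (by norm_num)
  rw [div_eq_div_iff h4 h3, pow_succ] at h2
  have h5 : (3 : ℝ) ^ l * (∑ a ∈ Finset.Icc 1 (3 ^ (l + 1)), G ((a : ℕ) : ZMod (3 ^ l)))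
      = (3 : ℝ) ^ l * (3 * ∑ z, G z) := by
    rw [pow_succ] at h2 ⊢
    linarith
  exact mul_left_cancel₀ h3 h5

theorem dty (hcns : CnsStmt) (hcod : CodStmt) (htel : TelStmt) (hava : AvaStmt) : DtyStmt := by
  intro p
  obtain ⟨C1, hC1, htel'⟩ := htel p
  refine ⟨4 * C1, by linarith, ?_⟩
  intro t m l hml hlt
  obtain ⟨k, rfl⟩ : ∃ k, l = k + 1 := ⟨l - 1, by omega⟩
  have hmk : m ≤ k := by omega
  set G1 : ZMod (3 ^ (k + 1)) → ℝ := fun x =>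
    |(cnt (t + 1) {k + 1} (k + 1) x : ℝ)
      - 3 ^ m / 3 ^ (k + 1) * (cnt (t + 1) {k + 1} m (pj m (k + 1) x) : ℝ)| with hG1
  set G2 : ZMod (3 ^ (k + 1)) → ℝ := fun x =>
    |(cnt t {k + 1} (k + 1) x : ℝ)
      - 3 ^ m / 3 ^ (k + 1) * (cnt t {k + 1} m (pj m (k + 1) x) : ℝ)| with hG2
  set G3 : ZMod (3 ^ k) → ℝ := fun x =>
    |(cnt t {k} k x : ℝ) - 3 ^ m / 3 ^ k * (cnt t {k} m (pj m k x) : ℝ)| with hG3
  have key : ∀ a ∈ Finset.Icc 1 (3 ^ (k + 1)), |dl t (k + 1) a| ≤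
      G1 ((a : ℕ) : ZMod (3 ^ (k + 1))) + G2 ((a : ℕ) : ZMod (3 ^ (k + 1)))
        + G3 ((a : ℕ) : ZMod (3 ^ k)) / 3 := by
    intro a ha
    have ha0 : 0 < a := (Finset.mem_Icc.1 ha).1
    have e1 := hcod (t + 1) (k + 1) a ha0
    have e2 := hcod t (k + 1) a ha0
    have e3 := hcod t k a ha0
    have e4 := hcns t m (k + 1) ((a : ℕ) : ZMod (3 ^ m)) hml
    simp only [Nat.add_sub_cancel] at e4
    have e4' : (cnt (t + 1) {k + 1} m ((a : ℕ) : ZMod (3 ^ m)) : ℝ)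
        = (cnt t {k + 1} m ((a : ℕ) : ZMod (3 ^ m)) : ℝ)
          + (cnt t {k} m ((a : ℕ) : ZMod (3 ^ m)) : ℝ) := by
      exact_mod_cast e4
    unfold dl
    rw [if_neg (Nat.succ_ne_zero k), Nat.add_sub_cancel, e1, e2, e3]
    simp only [hG1, hG2, hG3]
    rw [pj_cast m (k + 1) a (by omega), pj_cast m k a hmk]
    set c1 : ℝ := (cnt (t + 1) {k + 1} (k + 1) ((a : ℕ) : ZMod (3 ^ (k + 1))) : ℝ)
    set c2 : ℝ := (cnt t {k + 1} (k + 1) ((a : ℕ) : ZMod (3 ^ (k + 1))) : ℝ)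
    set c3 : ℝ := (cnt t {k} k ((a : ℕ) : ZMod (3 ^ k)) : ℝ)
    set d1 : ℝ := (cnt (t + 1) {k + 1} m ((a : ℕ) : ZMod (3 ^ m)) : ℝ)
    set d2 : ℝ := (cnt t {k + 1} m ((a : ℕ) : ZMod (3 ^ m)) : ℝ)
    set d3 : ℝ := (cnt t {k} m ((a : ℕ) : ZMod (3 ^ m)) : ℝ)
    have h3 : (3 : ℝ) ^ k ≠ 0 := pow_ne_zero _ (by norm_num)
    have hid : c1 - c2 - c3 / 3 = (c1 - 3 ^ m / 3 ^ (k + 1) * d1)
        - (c2 - 3 ^ m / 3 ^ (k + 1) * d2) - (c3 - 3 ^ m / 3 ^ k * d3) / 3 := by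
      rw [e4', pow_succ]
      field_simp
      ring
    rw [hid]
    have hb1 := abs_sub (c1 - 3 ^ m / 3 ^ (k + 1) * d1 - (c2 - 3 ^ m / 3 ^ (k + 1) * d2))
      ((c3 - 3 ^ m / 3 ^ k * d3) / 3)
    have hb2 := abs_sub (c1 - 3 ^ m / 3 ^ (k + 1) * d1) (c2 - 3 ^ m / 3 ^ (k + 1) * d2)
    have hb3 : |(c3 - 3 ^ m / 3 ^ k * d3) / 3| = |c3 - 3 ^ m / 3 ^ k * d3| / 3 := by
      rw [abs_div]
      norm_num
    rw [hb3] at hb1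
    linarith
  have hsum := Finset.sum_le_sum key
  rw [Finset.sum_add_distrib, Finset.sum_add_distrib, ← Finset.sum_div,
    sum_cls hava (k + 1) G1, sum_cls hava (k + 1) G2, sum_cls3 hava k G3] at hsum
  have t1 := htel' m (k + 1) (t + 1) (by omega) (by omega)
  have t2 := htel' m (k + 1) t (by omega) (by omega)
  have t3 := htel' m k t hmk (by omega)
  have hfin : ∑ z, G1 z + ∑ z, G2 z + 3 * (∑ z, G3 z) / 3
      ≤ C1 / ((m : ℝ) + 1) ^ p * 2 ^ (t + 1) + C1 / ((m : ℝ) + 1) ^ p * 2 ^ t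
        + 3 * (C1 / ((m : ℝ) + 1) ^ p * 2 ^ t) / 3 := by
    have : ∑ z, G1 z ≤ C1 / ((m : ℝ) + 1) ^ p * 2 ^ (t + 1) := t1
    have : ∑ z, G2 z ≤ C1 / ((m : ℝ) + 1) ^ p * 2 ^ t := t2
    have : ∑ z, G3 z ≤ C1 / ((m : ℝ) + 1) ^ p * 2 ^ t := t3
    linarith
  refine hsum.trans (hfin.trans (le_of_eq ?_))
  rw [pow_succ]
  ring

end Pool.Agent.WR3.H58
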